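import Pool.Agent.W732.Cor.Stm2
import Pool.Agent.H326R3.CB3

/-!
# The local corona theorem with scaled continuous functions
-/

set_option autoImplicit false

open Metric Set Filter Topology

namespace W973.Cor

open Pool.Agent.W732.Cor Pool.Agent.H326R3.CB

variable {m : ℕ}

theorem sc_const (p : Pool.Agent.W732.Cor.V m) (c : ℂ) : SC p (fun _ => c) := by
  intro q _ _ ε hε
  exact ⟨1, one_pos, fun a _ z _ w _ _ _ => by rw [sub_self, norm_zero]; exact hε.le⟩

theorem sc_div {p : Pool.Agent.W732.Cor.V m} {h : Pool.Agent.W732.Cor.V m → ℂ} (hs : SC p h)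
    {M : ℝ} (hM : 0 < M) : SC p (fun z => h z / (M : ℂ)) := by
  intro q hq1 hq2 ε hε
  obtain ⟨r, hr, h1⟩ := hs q hq1 hq2 (ε * M) (by positivity)
  refine ⟨r, hr, fun a ha z hz w hw h2 h3 => ?_⟩
  rw [← sub_div, norm_div, Complex.norm_real, Real.norm_of_nonneg hM.le, div_le_iff₀ hM]
  exact h1 a ha z hz w hw h2 h3

/-- off a neighbourhood of `p` the function `1 - ⟨p, z⟩` is not small -/
theorem one_sub_inner {p z : Pool.Agent.W732.Cor.V m} (hp : ‖p‖ = 1) (hz : ‖z‖ ≤ 1) {ρ : ℝ}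
    (hρ : 0 ≤ ρ) (h : ρ ≤ ‖z - p‖) : ρ ^ 2 / 2 ≤ ‖(1 : ℂ) - inner ℂ p z‖ := by
  have h3 : ‖z - p‖ ^ 2 = ‖z‖ ^ 2 - 2 * (inner ℂ p z : ℂ).re + 1 := by
    rw [norm_sub_sq (𝕜 := ℂ), hp]
    have : RCLike.re (inner ℂ z p : ℂ) = (inner ℂ p z : ℂ).re :=
      inner_re_symm (𝕜 := ℂ) _ _
    rw [this]
    ring
  have h4 : ρ ^ 2 ≤ ‖z - p‖ ^ 2 := pow_le_pow_left₀ hρ h 2
  have h5 : ‖z‖ ^ 2 ≤ 1 := by nlinarith [norm_nonneg z]
  have h6 : ((1 : ℂ) - inner ℂ p z).re ≤ ‖(1 : ℂ) - inner ℂ p z‖ := Complex.re_le_norm _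
  rw [Complex.sub_re, Complex.one_re] at h6
  linarith

theorem local3 (huni : S_uni) (hsc1 : S_sc1) {N : ℕ} (F : Fin N → Hi m)
    (p : Pool.Agent.W732.Cor.V m) (hp : ‖p‖ = 1)
    (k : Fin N) (S : Finset (Fin N)) {c : ℝ} (hc : 0 < c)
    (hlow : ∀ᶠ z : Bt m in comap Subtype.val (𝓝 p),
      c ≤ ‖(F k).1 z‖ + ∑ j ∈ S, ‖(F j).1 z‖)
    (h : Fin N → Pool.Agent.W732.Cor.V m → ℂ) (hd : ∀ j, DifferentiableOn ℂ (h j) (ball 0 1))
    (hb : ∀ j, ∃ M : ℝ, ∀ w ∈ ball (0 : Pool.Agent.W732.Cor.V m) 1, ‖h j w‖ ≤ M)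
    (hs : ∀ j, SC p (h j))
    (ht : ∀ j ∈ S, Tendsto (fun z : Bt m => (F j).1 z - h j z)
      (comap Subtype.val (𝓝 p)) (𝓝 0)) :
    ∃ (ι : Type) (_ : Fintype ι) (a b : ι → Hi m), ∑ i, a i * b i = 1 ∧
      ∀ i, ∃ c ∈ Ideal.span (Set.range F), Tendsto (fun z : Bt m => (a i).1 z - c.1 z)
        (comap Subtype.val (𝓝 p)) (𝓝 0) := by
  classical
  choose Mh hMh using hb
  obtain ⟨fk, hfk, hFk⟩ := (F k).2
  -- a common bound
  obtain ⟨M, hM2, hMj, hMk⟩ : ∃ M : ℝ, 2 ≤ M ∧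
      (∀ j, ∀ w ∈ ball (0 : Pool.Agent.W732.Cor.V m) 1, ‖h j w‖ ≤ M) ∧ ‖F k‖ ≤ M := by
    refine ⟨2 + ∑ j, |Mh j| + ‖F k‖, ?_, ?_, ?_⟩
    · have : 0 ≤ ∑ j, |Mh j| := Finset.sum_nonneg fun j _ => abs_nonneg _
      linarith [norm_nonneg (F k)]
    · intro j w hw
      have h1 : |Mh j| ≤ ∑ j, |Mh j| :=
        Finset.single_le_sum (f := fun j => |Mh j|) (fun j _ => abs_nonneg _) (Finset.mem_univ j)
      linarith [hMh j w hw, le_abs_self (Mh j), norm_nonneg (F k)]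
    · have : 0 ≤ ∑ j, |Mh j| := Finset.sum_nonneg fun j _ => abs_nonneg _
      linarith
  have hM0 : 0 < M := by linarith
  have hMn : ‖(M : ℂ)‖ = M := by rw [Complex.norm_real, Real.norm_of_nonneg hM0.le]
  have hMc : (M : ℂ) ≠ 0 := by exact_mod_cast hM0.ne'
  -- radius
  set η : ℝ := c / (4 * (N + 1)) with hη
  have hN1 : (0:ℝ) < N + 1 := by positivity
  have hη0 : 0 < η := by positivity
  have hNη : N * η ≤ c / 4 := by
    rw [hη]
    have : (N : ℝ) * (c / (4 * (N + 1))) = (N / (N + 1)) * (c / 4) := by field_simp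
    rw [this]
    have h1 : (N : ℝ) / (N + 1) ≤ 1 := by rw [div_le_one hN1]; linarith
    calc (N : ℝ) / (N + 1) * (c / 4) ≤ 1 * (c / 4) := by gcongr
      _ = c / 4 := one_mul _
  obtain ⟨ρ, hρ, hρ2⟩ : ∃ ρ > 0, ∀ z : Bt m, ‖(z : Pool.Agent.W732.Cor.V m) - p‖ < ρ →
      (∀ j ∈ S, ‖(F j).1 z - h j z‖ ≤ η) ∧ c ≤ ‖(F k).1 z‖ + ∑ j ∈ S, ‖(F j).1 z‖ := by
    have h1 : ∀ᶠ z : Bt m in comap Subtype.val (𝓝 p), ∀ j, j ∈ S →
        ‖(F j).1 z - h j z‖ < η := by
      rw [eventually_all]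
      intro j
      by_cases hj : j ∈ S
      · have h2 := (ht j hj).norm
        rw [norm_zero] at h2
        filter_upwards [h2.eventually_lt_const hη0] with z hz _
        exact hz
      · exact Eventually.of_forall fun z hz => absurd hz hj
    have h2 := h1.and hlow
    rw [eventually_comap] at h2
    obtain ⟨ρ, hρ, h3⟩ := Metric.eventually_nhds_iff.1 h2
    refine ⟨ρ, hρ, fun z hz => ?_⟩
    have h4 := h3 (y := (z : Pool.Agent.W732.Cor.V m)) (by rw [dist_eq_norm]; exact hz) z rfl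
    exact ⟨fun j hj => (h4.1 j hj).le, h4.2⟩
  -- the functions
  set h0 : ℂ → ℂ := fun x => (1 - x) / (M : ℂ) with hh0
  have hinn : ∀ z ∈ ball (0 : Pool.Agent.W732.Cor.V m) 1, (inner ℂ p z : ℂ) ∈ ball (0 : ℂ) 1 := by
    intro z hz
    rw [mem_ball_zero_iff] at hz ⊢
    calc ‖(inner ℂ p z : ℂ)‖ ≤ ‖p‖ * ‖z‖ := norm_inner_le_norm _ _
      _ = ‖z‖ := by rw [hp, one_mul]
      _ < 1 := hz
  have hh0d : DifferentiableOn ℂ h0 (ball 0 1) :=
    (by fun_prop : Differentiable ℂ fun x : ℂ => (1 - x) / (M:ℂ)).differentiableOn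
  have hh0b : ∀ x ∈ ball (0 : ℂ) 1, ‖h0 x‖ ≤ 1 := by
    intro x hx
    rw [mem_ball_zero_iff] at hx
    rw [hh0]
    simp only [norm_div, hMn]
    rw [div_le_one hM0]
    calc ‖1 - x‖ ≤ ‖(1:ℂ)‖ + ‖x‖ := norm_sub_le _ _
      _ ≤ M := by rw [norm_one]; linarith
  have hinnd : Differentiable ℂ (fun z : Pool.Agent.W732.Cor.V m => (inner ℂ p z : ℂ)) :=
    (innerSL ℂ p).differentiable
  set fm : Fin (N + 1) → Pool.Agent.W732.Cor.V m → ℂ := Fin.cases (fun z => h0 (inner ℂ p z))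
    (fun j z => if j ∈ S then h j z / (M : ℂ) else 0) with hfm
  have hfm0 : fm 0 = fun z => h0 (inner ℂ p z) := rfl
  have hfms : ∀ j : Fin N, fm j.succ = fun z => if j ∈ S then h j z / (M : ℂ) else 0 :=
    fun j => rfl
  have hfmS : ∀ j : Fin N, j ∈ S → fm j.succ = fun z => h j z / (M : ℂ) := by
    intro j hj
    rw [hfms]; funext x; rw [if_pos hj]
  have hfmN : ∀ j : Fin N, j ∉ S → fm j.succ = fun _ => 0 := by
    intro j hj
    rw [hfms]; funext x; rw [if_neg hj]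
  have hfmd : ∀ i, DifferentiableOn ℂ (fm i) (ball 0 1) := by
    intro i
    refine Fin.cases ?_ (fun j => ?_) i
    · rw [hfm0]
      exact hh0d.comp hinnd.differentiableOn hinn
    · by_cases hj : j ∈ S
      · rw [hfmS j hj]
        have h1 := (hd j).mul_const ((M : ℂ)⁻¹)
        simp only [← div_eq_mul_inv] at h1
        exact h1
      · rw [hfmN j hj]
        exact differentiableOn_const _
  have hfmb : ∀ i, ∀ x ∈ ball (0 : Pool.Agent.W732.Cor.V m) 1, ‖fm i x‖ ≤ 1 := by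
    intro i
    refine Fin.cases ?_ (fun j => ?_) i
    · intro x hx
      rw [hfm0]
      exact hh0b _ (hinn x hx)
    · intro x hx
      by_cases hj : j ∈ S
      · rw [hfmS j hj]
        simp only [norm_div, hMn]
        rw [div_le_one hM0]
        exact hMj j x hx
      · rw [hfmN j hj]; simp
  have hfmsc : ∀ i, SC p (fm i) := by
    intro i
    refine Fin.cases ?_ (fun j => ?_) i
    · rw [hfm0]
      exact hsc1 m p hp h0 hh0d ⟨1, hh0b⟩
    · by_cases hj : j ∈ S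
      · rw [hfmS j hj]
        exact sc_div (hs j) hM0
      · rw [hfmN j hj]
        exact sc_const p 0
  have hfkF : ∀ v : Pool.Agent.W732.Cor.V m, ∀ hv : v ∈ ball (0 : Pool.Agent.W732.Cor.V m) 1,
      fk v = (F k).1 ⟨v, hv⟩ := fun v hv => (hFk ⟨v, hv⟩).symm
  set G : Pool.Agent.W732.Cor.V m → ℂ := fun z => fk z / (M : ℂ) with hG
  have hGd : DifferentiableOn ℂ G (ball 0 1) := by
    have h1 := hfk.mul_const ((M : ℂ)⁻¹)
    simp only [← div_eq_mul_inv] at h1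
    exact h1
  have hGb : ∀ z ∈ ball (0 : Pool.Agent.W732.Cor.V m) 1, ‖G z‖ ≤ 1 := by
    intro z hz
    rw [hG]
    simp only [norm_div, hMn]
    rw [div_le_one hM0, hfkF z hz]
    exact (Hi.le_norm (F k) _).trans hMk
  -- the lower bound
  set δ : ℝ := min (3 * c / 4) (ρ ^ 2 / 2) / M with hδ
  have hδ0 : 0 < δ := by positivity
  have hlow2 : ∀ z ∈ ball (0 : Pool.Agent.W732.Cor.V m) 1, δ ≤ ∑ i, ‖fm i z‖ + ‖G z‖ := by
    intro z hz
    rw [hδ, div_le_iff₀ hM0]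
    by_cases hzp : ‖z - p‖ < ρ
    · obtain ⟨h8, h9⟩ := hρ2 ⟨z, hz⟩ hzp
      have h10 : ∑ j ∈ S, ‖(F j).1 ⟨z, hz⟩‖ ≤ ∑ j ∈ S, (M * ‖fm j.succ z‖ + η) := by
        refine Finset.sum_le_sum fun j hj => ?_
        have h12 := h8 j hj
        have h15 := norm_add_le ((F j).1 ⟨z, hz⟩ - h j z) (h j z)
        rw [sub_add_cancel] at h15
        have h16 : M * ‖fm j.succ z‖ = ‖h j z‖ := by
          rw [hfmS j hj]
          simp only [norm_div, hMn]
          rw [mul_div_cancel₀ _ hM0.ne']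
        rw [h16]
        linarith
      rw [Finset.sum_add_distrib, Finset.sum_const, nsmul_eq_mul, ← Finset.mul_sum] at h10
      have h11 : (S.card : ℝ) * η ≤ N * η := by
        have h12 : (S.card : ℝ) ≤ N := by
          have := Finset.card_le_univ S
          rw [Fintype.card_fin] at this
          exact_mod_cast this
        exact mul_le_mul_of_nonneg_right h12 hη0.le
      have h13 : ∑ j ∈ S, ‖fm j.succ z‖ ≤ ∑ i, ‖fm i z‖ := by
        rw [Fin.sum_univ_succ]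
        have h14 : ∑ j ∈ S, ‖fm j.succ z‖ ≤ ∑ j : Fin N, ‖fm j.succ z‖ :=
          Finset.sum_le_sum_of_subset_of_nonneg (Finset.subset_univ S)
            (fun j _ _ => norm_nonneg _)
        have := norm_nonneg (fm 0 z)
        linarith
      have h17 : M * ‖G z‖ = ‖(F k).1 ⟨z, hz⟩‖ := by
        rw [hG]
        simp only [norm_div, hMn]
        rw [mul_div_cancel₀ _ hM0.ne', hfkF z hz]
      have h18 : M * ∑ j ∈ S, ‖fm j.succ z‖ ≤ M * ∑ i, ‖fm i z‖ :=
        mul_le_mul_of_nonneg_left h13 hM0.le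
      have h19 : min (3 * c / 4) (ρ ^ 2 / 2) ≤ 3 * c / 4 := min_le_left _ _
      have h20 : (∑ i, ‖fm i z‖ + ‖G z‖) * M = M * ∑ i, ‖fm i z‖ + M * ‖G z‖ := by ring
      rw [h20, h17]
      linarith
    · push Not at hzp
      have hz1 : ‖z‖ ≤ 1 := by
        rw [mem_ball_zero_iff] at hz
        exact hz.le
      have h8 := one_sub_inner hp hz1 hρ.le hzp
      have h9 : ‖fm 0 z‖ * M = ‖(1 : ℂ) - inner ℂ p z‖ := by
        rw [hfm0, hh0]
        simp only [norm_div, hMn]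
        rw [div_mul_cancel₀ _ hM0.ne']
      have h10 : ‖fm 0 z‖ ≤ ∑ i, ‖fm i z‖ :=
        Finset.single_le_sum (f := fun i => ‖fm i z‖) (fun i _ => norm_nonneg _)
          (Finset.mem_univ 0)
      have h11 : ‖fm 0 z‖ * M ≤ (∑ i, ‖fm i z‖) * M := mul_le_mul_of_nonneg_right h10 hM0.le
      have h12 : 0 ≤ ‖G z‖ * M := by positivity
      have h13 : min (3 * c / 4) (ρ ^ 2 / 2) ≤ ρ ^ 2 / 2 := min_le_right _ _
      rw [add_mul]
      linarith
  -- radii of equicontinuity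
  have hrad : ∀ (q : Pool.Agent.W732.Cor.V m) (ε : ℝ), ∃ r : ℝ, 0 < r ∧
      (‖q‖ = 1 → (inner ℂ p q : ℂ) = 0 → 0 < ε → ∀ i,
        ∀ a ∈ ball (0 : ℂ) 1, ∀ z ∈ ball (0 : Pool.Agent.W732.Cor.V m) 1,
          ∀ w ∈ ball (0 : Pool.Agent.W732.Cor.V m) 1,
          ‖z - q‖ < r → ‖w - q‖ < r → ‖fm i (mv p a z) - fm i (mv p a w)‖ ≤ ε) := by
    intro q ε
    by_cases hq : ‖q‖ = 1 ∧ (inner ℂ p q : ℂ) = 0 ∧ 0 < ε
    · obtain ⟨hq1, hq2, hε⟩ := hq
      choose r hr hr2 using fun i => hfmsc i q hq1 hq2 ε hε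
      refine ⟨Finset.univ.inf' Finset.univ_nonempty r, ?_, ?_⟩
      · rw [Finset.lt_inf'_iff]
        exact fun i _ => hr i
      · intro _ _ _ i a ha z hz w hw h1 h2
        exact hr2 i a ha z hz w hw
          (h1.trans_le (Finset.inf'_le _ (Finset.mem_univ i)))
          (h2.trans_le (Finset.inf'_le _ (Finset.mem_univ i)))
    · refine ⟨1, one_pos, fun h1 h2 h3 => absurd ⟨h1, h2, h3⟩ hq⟩
  choose r hr0 hr using hrad
  obtain ⟨C, hC⟩ := huni m p hp (N + 1) δ hδ0 r (fun q ε _ => hr0 q ε)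
  obtain ⟨g, g₀, hg, hg₀, hgb, hg₀b, hbez⟩ := hC fm G hfmd hGd hfmb hGb hlow2
    (fun i q hq1 hq2 ε hε a ha z hz w hw h1 h2 => hr q ε hq1 hq2 hε i a ha z hz w hw h1 h2)
  refine ⟨Option (Fin (N + 1)), inferInstance,
    fun o => o.elim (F k * Cc (1 / M)) (fun i => mk (hfmd i) (C := 1) (fun v hv => hfmb i v hv)),
    fun o => o.elim (mk hg₀ (C := C) (fun v hv => hg₀b v hv))
      (fun i => mk (hg i) (C := C) (fun v hv => hgb i v hv)), ?_, ?_⟩
  · apply Hi.ext
    intro z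
    rw [Hi.sum_apply, Hi.one_apply, Fintype.sum_option]
    have h1 := hbez z z.2
    rw [add_comm] at h1
    refine Eq.trans ?_ h1
    simp only [Option.elim]
    congr 1
    · rw [Hi.mul_apply, Hi.mul_apply, Cc_apply, mk_apply]
      rw [hG]
      simp only
      rw [hFk]
      ring
  · intro o
    rcases o with _ | i
    · refine ⟨F k * Cc (1 / M), Ideal.mul_mem_right _ _ (Ideal.subset_span ⟨k, rfl⟩), ?_⟩
      simp only [Option.elim, sub_self]
      exact tendsto_const_nhds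
    · refine Fin.cases ?_ (fun j => ?_) i
      · refine ⟨0, Ideal.zero_mem _, ?_⟩
        simp only [Option.elim, mk_apply, hfm0]
        have h1 : Continuous (fun z : Pool.Agent.W732.Cor.V m => h0 (inner ℂ p z)) := by
          have : Continuous h0 := by rw [hh0]; fun_prop
          exact this.comp hinnd.continuous
        have h2 := (h1.tendsto p).comp (tendsto_comap (f := (Subtype.val : Bt m → _)) (x := 𝓝 p))
        have h3 : h0 (inner ℂ p p) = 0 := by
          rw [hh0]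
          simp only
          rw [inner_self_eq_norm_sq_to_K, hp]
          simp
        rw [h3] at h2
        refine h2.congr (fun z => ?_)
        have h4 : (0 : Hi m).1 z = 0 := rfl
        rw [h4, sub_zero]; rfl
      · by_cases hj : j ∈ S
        · refine ⟨F j * Cc (1 / M), Ideal.mul_mem_right _ _ (Ideal.subset_span ⟨j, rfl⟩), ?_⟩
          simp only [Option.elim, mk_apply, hfmS j hj]
          have h1 := ((ht j hj).neg).div_const (M:ℂ)
          rw [neg_zero, zero_div] at h1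
          refine h1.congr (fun z => ?_)
          rw [Hi.mul_apply, Cc_apply]
          ring
        · refine ⟨0, Ideal.zero_mem _, ?_⟩
          simp only [Option.elim, mk_apply, hfmN j hj]
          refine tendsto_const_nhds.congr (fun z => ?_)
          have h4 : (0 : Hi m).1 z = 0 := rfl
          rw [h4, sub_zero]

theorem main : S_mv → S_uni → S_sc1 → S_sc3 → S_fin := by
  intro _ huni hsc1 _ m N f hd hb hz hp
  classical
  choose M hM using hb
  set F : Fin N → Hi m := fun j => mk (hd j) (C := M j) (fun v hv => hM j v hv) with hF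
  have hFz : ∀ j, ∀ z : Bt m, (F j).1 z = f j z := fun j z => rfl
  have htop : Ideal.span (Set.range F) = ⊤ := by
    refine core _ (fun z => ?_) (fun p hp1 => ?_)
    · obtain ⟨j, hj⟩ := hz z z.2
      exact ⟨F j, Ideal.subset_span ⟨j, rfl⟩, hj⟩
    · obtain ⟨k, S, c, hc, hlow, hS⟩ := hp p hp1
      have ht : Tendsto (Subtype.val : Bt m → _) (comap Subtype.val (𝓝 p)) (𝓝[ball 0 1] p) := by
        rw [tendsto_nhdsWithin_iff]
        exact ⟨tendsto_comap, Eventually.of_forall fun z => z.2⟩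
      have hk2 : ∀ j, ∃ h : Pool.Agent.W732.Cor.V m → ℂ, DifferentiableOn ℂ h (ball 0 1) ∧
          (∃ M : ℝ, ∀ w ∈ ball (0 : Pool.Agent.W732.Cor.V m) 1, ‖h w‖ ≤ M) ∧ SC p h ∧
          (j ∈ S → Tendsto (fun z => f j z - h z) (𝓝[ball 0 1] p) (𝓝 0)) := by
        intro j
        by_cases hj : j ∈ S
        · obtain ⟨h, h1, h2, h3, h4⟩ := hS j hj
          exact ⟨h, h1, h2, h3, fun _ => h4⟩
        · exact ⟨fun _ => 0, differentiableOn_const _, ⟨0, fun w _ => by simp⟩,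
            sc_const p 0, fun h => absurd h hj⟩
      choose h hh1 hh2 hh3 hh4 using hk2
      exact local3 huni hsc1 F p hp1 k S hc (ht.eventually hlow) h hh1 hh2 hh3
        (fun j hj => (hh4 j hj).comp ht)
  have h1 : (1 : Hi m) ∈ Ideal.span (Set.range F) := by rw [htop]; trivial
  obtain ⟨c, hcs⟩ := Ideal.mem_span_range_iff_exists_fun.1 h1
  choose g hg hgc using fun j => (c j).2
  refine ⟨g, hg, ?_, ?_⟩
  · refine ⟨∑ j, ‖c j‖, fun j z hz => ?_⟩
    have h2 := hgc j ⟨z, hz⟩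
    have h3 := Hi.le_norm (c j) ⟨z, hz⟩
    rw [h2] at h3
    exact h3.trans (Finset.single_le_sum (f := fun j => ‖c j‖) (fun j _ => norm_nonneg _)
      (Finset.mem_univ j))
  · intro z hz
    have h2 : (∑ j, c j * F j).1 ⟨z, hz⟩ = 1 := by rw [hcs]; rfl
    rw [Hi.sum_apply] at h2
    rw [← h2]
    refine Finset.sum_congr rfl fun j _ => ?_
    rw [Hi.mul_apply, hFz, hgc j]
    ring

end W973.Cor
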